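import Pool.Agent.N204.HR.Stm4

/-!
# The polarisation given by an ample divisor: linear algebra
-/

set_option linter.unusedSectionVars false

open TensorProduct

namespace Pool.Agent.N42.HR

open Module Finset
open Pool.Agent.H914
open Pool.Agent.N204.HR (IsPr IsHL)

section Lin

variable {K V : Type} [Field K] [AddCommGroup V] [Module K V] {gr : ℕ → Submodule K V}
  {l : Module.End K V} {d : ℕ}

lemma isPr_add {r i : ℕ} {a b : V} (ha : IsPr gr l d r i a) (hb : IsPr gr l d r i b) :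
    IsPr gr l d r i (a + b) := by
  rcases ha with rfl | ⟨j, h1, h2, h3, h4⟩
  · rwa [zero_add]
  · rcases hb with rfl | ⟨j', h1', h2', h3', h4'⟩
    · rw [add_zero]
      exact Or.inr ⟨j, h1, h2, h3, h4⟩
    · obtain rfl : j' = j := by omega
      exact Or.inr ⟨j', h1, h2, Submodule.add_mem _ h3 h3', by rw [map_add, h4, h4', add_zero]⟩

lemma isPr_smul {r i : ℕ} {a : V} (t : K) (ha : IsPr gr l d r i a) :
    IsPr gr l d r i (t • a) := by
  rcases ha with rfl | ⟨j, h1, h2, h3, h4⟩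
  · rw [smul_zero]
    exact Or.inl rfl
  · exact Or.inr ⟨j, h1, h2, Submodule.smul_mem _ _ h3, by rw [map_smul, h4, smul_zero]⟩

/-- The maps `c r` are the components of the primitive decomposition. -/
def IsComp (gr : ℕ → Submodule K V) (l : Module.End K V) (d : ℕ) (c : ℕ → Module.End K V) :
    Prop :=
  ∀ i, ∀ x ∈ gr i, (∀ r, IsPr gr l d r i (c r x)) ∧
    x = ∑ r ∈ range (d + 1), (l ^ r) (c r x)

/-- The primitive decomposition is unique. -/
def IsUniq (gr : ℕ → Submodule K V) (l : Module.End K V) (d : ℕ) : Prop :=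
  ∀ i, ∀ a : ℕ → V, (∀ r, IsPr gr l d r i (a r)) →
    ∑ r ∈ range (d + 1), (l ^ r) (a r) = 0 → ∀ r ≤ d, a r = 0

lemma comp_eq {c : ℕ → Module.End K V} (hc : IsComp gr l d c) (hu : IsUniq gr l d) {i : ℕ}
    {x : V} (hx : x ∈ gr i) {a : ℕ → V} (ha : ∀ r, IsPr gr l d r i (a r))
    (hxa : x = ∑ r ∈ range (d + 1), (l ^ r) (a r)) (r : ℕ) : c r x = a r := by
  obtain ⟨h1, h2⟩ := hc i x hx
  by_cases hr : r ≤ d
  · have h0 : ∑ r ∈ range (d + 1), (l ^ r) (c r x + (-1 : K) • a r) = 0 := by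
      have h5 : ∀ r ∈ range (d + 1), (l ^ r) (c r x + (-1 : K) • a r) =
          (l ^ r) (c r x) + (-1 : K) • (l ^ r) (a r) := by
        intro r _
        rw [map_add, map_smul]
      rw [Finset.sum_congr rfl h5, Finset.sum_add_distrib, ← Finset.smul_sum, ← h2, ← hxa,
        neg_one_smul, add_neg_cancel]
    have h3 := hu i (fun r => c r x + (-1 : K) • a r)
      (fun r => isPr_add (h1 r) (isPr_smul _ (ha r))) h0 r hr
    beta_reduce at h3
    rw [neg_one_smul, add_neg_eq_zero] at h3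
    exact h3
  · have h4 : ∀ b, IsPr gr l d r i b → b = 0 := by
      rintro b (h | ⟨j, _, h6, _⟩)
      · exact h
      · omega
    rw [h4 _ (h1 r), h4 _ (ha r)]

end Lin

section Base

variable {K A : Type} [Field K] [Ring A] [Algebra K A] {gr : ℕ → Submodule K A}
  {l : Module.End K A} {d : ℕ} {E : Type} [Field E] [Algebra K E]

lemma isPr_base {r i : ℕ} {a : A} (ha : IsPr gr l d r i a) (e : E) :
    IsPr (fun i => (gr i).baseChange E) (l.baseChange E) d r i (e ⊗ₜ[K] a) := by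
  rcases ha with rfl | ⟨j, h1, h2, h3, h4⟩
  · rw [tmul_zero]
    exact Or.inl rfl
  · refine Or.inr ⟨j, h1, h2, Submodule.tmul_mem_baseChange_of_mem _ h3, ?_⟩
    have h5 : (l.baseChange E : Module.End E (E ⊗[K] A)) ^ (d - j + 1) =
        ((l ^ (d - j + 1) : Module.End K A)).baseChange E := (LinearMap.baseChange_pow K E A l _).symm
    rw [h5, LinearMap.baseChange_tmul, h4, tmul_zero]

lemma isComp_base {c : ℕ → Module.End K A} (hc : IsComp gr l d c) :
    IsComp (fun i => (gr i).baseChange E) (l.baseChange E : Module.End E (E ⊗[K] A)) d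
      (fun r => ((c r).baseChange E : Module.End E (E ⊗[K] A))) := by
  intro i x hx
  refine base_induction (P := fun x => (∀ r, IsPr (fun i => (gr i).baseChange E)
    (l.baseChange E : Module.End E (E ⊗[K] A)) d r i ((c r).baseChange E x)) ∧
    x = ∑ r ∈ range (d + 1), ((l.baseChange E : Module.End E (E ⊗[K] A)) ^ r)
      ((c r).baseChange E x)) ?_ ?_ ?_ hx
  · refine ⟨fun r => ?_, ?_⟩
    · rw [map_zero]
      exact Or.inl rfl
    · exact (Finset.sum_eq_zero fun r _ => by rw [map_zero, map_zero]).symm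
  · rintro x y ⟨hx1, hx2⟩ ⟨hy1, hy2⟩
    refine ⟨fun r => ?_, ?_⟩
    · rw [map_add]
      exact isPr_add (hx1 r) (hy1 r)
    · conv_lhs => rw [hx2, hy2]
      rw [← Finset.sum_add_distrib]
      exact Finset.sum_congr rfl fun r _ => by rw [map_add, map_add]
  · intro e a ha
    obtain ⟨h1, h2⟩ := hc i a ha
    refine ⟨fun r => ?_, ?_⟩
    · rw [LinearMap.baseChange_tmul]
      exact isPr_base (h1 r) e
    · conv_lhs => rw [h2]
      rw [tmul_sum]
      refine Finset.sum_congr rfl fun r _ => ?_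
      have h5 : (l.baseChange E : Module.End E (E ⊗[K] A)) ^ r =
          ((l ^ r : Module.End K A)).baseChange E := (LinearMap.baseChange_pow K E A l _).symm
      rw [h5, LinearMap.baseChange_tmul, LinearMap.baseChange_tmul]

lemma mulLeft_base (L : A) : ((LinearMap.mulLeft K L).baseChange E : Module.End E (E ⊗[K] A)) =
    LinearMap.mulLeft E ((1 : E) ⊗ₜ[K] L) := by
  apply LinearMap.ext
  intro x
  refine tmul_induction (P := fun x => (LinearMap.mulLeft K L).baseChange E x =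
    LinearMap.mulLeft E ((1 : E) ⊗ₜ[K] L) x) ?_ ?_ ?_ x
  · rw [map_zero, map_zero]
  · intro x y hx hy
    rw [map_add, map_add, hx, hy]
  · intro e a
    rw [LinearMap.baseChange_tmul, LinearMap.mulLeft_apply, LinearMap.mulLeft_apply,
      Algebra.TensorProduct.tmul_mul_tmul, one_mul]

/-- The operator which multiplies by `± L ^ (d - j)` in degree `j`. -/
noncomputable def Sop (h : DirectSum.IsInternal gr) (L : A) (d : ℕ) : Module.End K A :=
  ∑ j ∈ range (d + 1), ((-1 : K) ^ (j * (j - 1) / 2)) •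
    (LinearMap.mulLeft K (L ^ (d - j)) ∘ₗ proj h j)

lemma Sop_apply (h : DirectSum.IsInternal gr) (L : A) {j : ℕ} (hj : j ≤ d) {a : A}
    (ha : a ∈ gr j) : Sop h L d a = (-1 : K) ^ (j * (j - 1) / 2) • (L ^ (d - j) * a) := by
  rw [Sop, LinearMap.sum_apply, Finset.sum_eq_single j]
  · rw [LinearMap.smul_apply, LinearMap.comp_apply, proj_same h ha, LinearMap.mulLeft_apply]
  · intro b _ hb
    rw [LinearMap.smul_apply, LinearMap.comp_apply, proj_ne h ha (Ne.symm hb), map_zero,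
      smul_zero]
  · intro hn
    exact absurd (Finset.mem_range.2 (by omega)) hn

lemma Sop_base (h : DirectSum.IsInternal gr) (L : A) {j : ℕ} (hj : j ≤ d) {x : E ⊗[K] A}
    (hx : x ∈ (gr j).baseChange E) : (Sop h L d).baseChange E x =
      (-1 : E) ^ (j * (j - 1) / 2) • (((1 : E) ⊗ₜ[K] L) ^ (d - j) * x) := by
  refine base_induction (P := fun x => (Sop h L d).baseChange E x =
      (-1 : E) ^ (j * (j - 1) / 2) • (((1 : E) ⊗ₜ[K] L) ^ (d - j) * x)) ?_ ?_ ?_ hx
  · rw [map_zero, mul_zero, smul_zero]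
  · intro x y hx hy
    rw [map_add, hx, hy, mul_add, smul_add]
  · intro e a ha
    rw [LinearMap.baseChange_tmul, Sop_apply h L hj ha, Algebra.TensorProduct.tmul_pow, one_pow,
      Algebra.TensorProduct.tmul_mul_tmul, one_mul]
    rcases Nat.even_or_odd (j * (j - 1) / 2) with he | ho
    · rw [he.neg_one_pow, he.neg_one_pow, one_smul, one_smul]
    · rw [ho.neg_one_pow, ho.neg_one_pow, neg_one_smul, neg_one_smul, tmul_neg]

/-- The form. -/
noncomputable def psi (h : DirectSum.IsInternal gr) (tr : A →ₗ[K] K) (L : A) (d : ℕ)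
    (c : ℕ → Module.End K A) : A →ₗ[K] A →ₗ[K] K :=
  ∑ r ∈ range (d + 1), ((LinearMap.mul K A).compr₂ tr).compl₁₂ (Sop h L d ∘ₗ c r) (c r)

lemma psi_apply (h : DirectSum.IsInternal gr) (tr : A →ₗ[K] K) (L : A) (d : ℕ)
    (c : ℕ → Module.End K A) (x y : A) : psi h tr L d c x y =
      ∑ r ∈ range (d + 1), tr (Sop h L d (c r x) * c r y) := by
  rw [psi, LinearMap.sum_apply, LinearMap.sum_apply]
  rfl

lemma psi_base (h : DirectSum.IsInternal gr) (tr : A →ₗ[K] K) (L : A) (d : ℕ)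
    (c : ℕ → Module.End K A) (x y : E ⊗[K] A) :
    (LinearMap.BilinForm.baseChange E (psi h tr L d c) : LinearMap.BilinForm E (E ⊗[K] A)) x y =
      ∑ r ∈ range (d + 1), formBase E tr
        ((Sop h L d).baseChange E ((c r).baseChange E x) * (c r).baseChange E y) := by
  refine tmul_induction (P := fun x => (LinearMap.BilinForm.baseChange E (psi h tr L d c) :
    LinearMap.BilinForm E (E ⊗[K] A)) x y = ∑ r ∈ range (d + 1), formBase E tr
        ((Sop h L d).baseChange E ((c r).baseChange E x) * (c r).baseChange E y)) ?_ ?_ ?_ x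
  · rw [map_zero, LinearMap.zero_apply]
    exact (Finset.sum_eq_zero fun r _ => by
      rw [map_zero, map_zero, zero_mul, map_zero]).symm
  · intro a b ha hb
    rw [map_add, LinearMap.add_apply, ha, hb, ← Finset.sum_add_distrib]
    exact Finset.sum_congr rfl fun r _ => by rw [map_add, map_add, add_mul, map_add]
  · intro e a
    refine tmul_induction (P := fun y => (LinearMap.BilinForm.baseChange E (psi h tr L d c) :
      LinearMap.BilinForm E (E ⊗[K] A)) (e ⊗ₜ[K] a) y = ∑ r ∈ range (d + 1), formBase E tr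
        ((Sop h L d).baseChange E ((c r).baseChange E (e ⊗ₜ[K] a)) *
          (c r).baseChange E y)) ?_ ?_ ?_ y
    · rw [map_zero]
      exact (Finset.sum_eq_zero fun r _ => by rw [map_zero, mul_zero, map_zero]).symm
    · intro x z hx hz
      rw [map_add, hx, hz, ← Finset.sum_add_distrib]
      exact Finset.sum_congr rfl fun r _ => by rw [map_add, mul_add, map_add]
    · intro m b
      rw [LinearMap.BilinForm.baseChange_tmul, psi_apply, Finset.sum_smul]
      refine Finset.sum_congr rfl fun r _ => ?_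
      rw [LinearMap.baseChange_tmul, LinearMap.baseChange_tmul, LinearMap.baseChange_tmul,
        Algebra.TensorProduct.tmul_mul_tmul, formBase_tmul, Algebra.smul_def, mul_comm]

end Base

section Frob

variable {F A : Type} [Field F] [CharZero F] [Ring A] [Algebra F A] {gr : ℕ → Submodule F A}
  {tr : A →ₗ[F] F} {L : A} {d : ℕ} {c : ℕ → Module.End F A} {S : Module.End F A}

/-- **The Frobenius.** -/
theorem frob (hI : DirectSum.IsInternal gr) (hc : IsComp gr (LinearMap.mulLeft F L) d c)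
    (hu : IsUniq gr (LinearMap.mulLeft F L) d)
    (hS : ∀ j ≤ d, ∀ a ∈ gr j, S a = (-1 : F) ^ (j * (j - 1) / 2) • (L ^ (d - j) * a))
    (q : ℕ) (hq : 0 < q) (f : A → A) (hadd : ∀ x y, f (x + y) = f x + f y)
    (hmul : ∀ x y, f (x * y) = f x * f y)
    (hdeg : ∀ i, ∀ x ∈ gr i, f x ∈ gr i) (htr : ∀ x, tr (f x) = (q : F) ^ d * tr x)
    (hL : f L = (q : F) • L) {i : ℕ} {x : A} (hx : x ∈ gr i) (y : A) :
    ∑ r ∈ range (d + 1), tr (S (c r (f x)) * c r (f y)) =
      (q : F) ^ i * ∑ r ∈ range (d + 1), tr (S (c r x) * c r y) := by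
  have hq0 : (q : F) ≠ 0 := Nat.cast_ne_zero.2 (by omega)
  have h0 : f 0 = 0 := by
    have := hadd 0 0
    rw [add_zero] at this
    exact left_eq_add.1 this
  have hsum : ∀ (s : Finset ℕ) (g : ℕ → A), f (∑ r ∈ s, g r) = ∑ r ∈ s, f (g r) := by
    intro s g
    classical
    induction s using Finset.induction_on with
    | empty => rw [Finset.sum_empty, Finset.sum_empty, h0]
    | insert a s ha ih => rw [Finset.sum_insert ha, Finset.sum_insert ha, hadd, ih]
  have h1 : ∀ (n : ℕ) (y : A), f (L ^ n * y) = (q : F) ^ n • (L ^ n * f y) := by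
    intro n
    induction n with
    | zero => intro y; rw [pow_zero, pow_zero, one_mul, one_mul, one_smul]
    | succ n ih =>
      intro y
      rw [pow_succ' L n, mul_assoc, hmul, ih, hL, smul_mul_assoc, mul_smul_comm, smul_smul,
        ← mul_assoc, ← pow_succ' L n, ← pow_succ']
  have hpow : ∀ (n : ℕ) (y : A), (LinearMap.mulLeft F L ^ n) y = L ^ n * y := by
    intro n y
    rw [LinearMap.pow_mulLeft, LinearMap.mulLeft_apply]
  have h2 : ∀ (r : ℕ) (y : A), c r (f y) = (q : F) ^ r • f (c r y) := by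
    intro r y
    refine gr_induction hI (p := fun y => c r (f y) = (q : F) ^ r • f (c r y)) ?_ ?_ y
    · intro i y hy
      obtain ⟨h3, h4⟩ := hc i y hy
      refine comp_eq hc hu (hdeg i y hy) (a := fun r => (q : F) ^ r • f (c r y)) ?_ ?_ r
      · intro r
        apply isPr_smul
        rcases h3 r with h5 | ⟨j, h5, h6, h7, h8⟩
        · rw [h5, h0]
          exact Or.inl rfl
        · refine Or.inr ⟨j, h5, h6, hdeg j _ h7, ?_⟩
          rw [hpow] at h8 ⊢
          have h9 := h1 (d - j + 1) (c r y)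
          rw [h8, h0] at h9
          rcases smul_eq_zero.1 h9.symm with h10 | h10
          · exact absurd h10 (pow_ne_zero _ hq0)
          · exact h10
      · conv_lhs => rw [h4, hsum]
        refine Finset.sum_congr rfl fun r _ => ?_
        rw [hpow, h1, map_smul, hpow]
    · intro a b ha hb
      rw [hadd, map_add, ha, hb, map_add, hadd, smul_add]
  have h3 : ∀ j ≤ d, ∀ z ∈ gr j, ∀ w, tr (S (f z) * f w) = (q : F) ^ j * tr (S z * w) := by
    intro j hj z hz w
    apply mul_left_cancel₀ (pow_ne_zero (d - j) hq0)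
    rw [hS j hj z hz, hS j hj _ (hdeg j z hz), smul_mul_assoc, smul_mul_assoc, map_smul, map_smul,
      smul_eq_mul, smul_eq_mul, mul_left_comm]
    have h4 : (q : F) ^ (d - j) * tr (L ^ (d - j) * f z * f w) =
        (q : F) ^ d * tr (L ^ (d - j) * z * w) := by
      rw [← htr, hmul, h1, smul_mul_assoc, map_smul, smul_eq_mul]
    rw [h4]
    have h5 : (q : F) ^ d = (q : F) ^ (d - j) * (q : F) ^ j := by
      rw [← pow_add]
      congr 1
      omega
    rw [h5]
    ring
  obtain ⟨h4, -⟩ := hc i x hx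
  rw [Finset.mul_sum]
  refine Finset.sum_congr rfl fun r _ => ?_
  rw [h2, h2, map_smul, smul_mul_smul_comm, map_smul, smul_eq_mul]
  rcases h4 r with h5 | ⟨j, h5, h6, h7, -⟩
  · rw [h5, h0, map_zero, zero_mul, zero_mul, map_zero, mul_zero, mul_zero]
  · rw [h3 j (by omega) _ h7, ← mul_assoc]
    congr 1
    rw [h5]
    ring

end Frob

section Hodge

/-- The data over the complex numbers. -/
structure Dat {A : Type} [Ring A] [Algebra ℂ A] (gr : ℕ → Submodule ℂ A) (tr : A →ₗ[ℂ] ℂ)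
    (L : A) (d : ℕ) (pq : ℤ → ℤ → Submodule ℂ A) (cj : A → A) (prt : ℤ × ℤ → Module.End ℂ A)
    (c : ℕ → Module.End ℂ A) (S : Module.End ℂ A) : Prop where
  comp : IsComp gr (LinearMap.mulLeft ℂ L) d c
  uniq : IsUniq gr (LinearMap.mulLeft ℂ L) d
  S_eq : ∀ j ≤ d, ∀ a ∈ gr j, S a = (-1 : ℂ) ^ (j * (j - 1) / 2) • (L ^ (d - j) * a)
  le : ∀ (p q : ℤ) (i : ℕ), p + q = i → pq p q ≤ gr i
  mul : ∀ (p q r s : ℤ) (a b : A), a ∈ pq p q → b ∈ pq r s → a * b ∈ pq (p + r) (q + s)
  prt_same : ∀ (p q : ℤ) (x : A), x ∈ pq p q → prt (p, q) x = x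
  prt_mem : ∀ (r : ℤ × ℤ) (x : A), prt r x ∈ pq r.1 r.2
  prt_mul : ∀ (n : ℕ) (r : ℤ × ℤ) (y : A), prt (n + r.1, n + r.2) (L ^ n * y) = L ^ n * prt r y
  pow : ∀ n : ℕ, L ^ n ∈ pq n n
  tr_pq : ∀ (a b : ℤ) (z : A), a ≠ b → z ∈ pq a b → tr z = 0
  tr_gr : ∀ (i : ℕ) (z : A), i ≠ 2 * d → z ∈ gr i → tr z = 0
  cj_c : ∀ (r : ℕ) (x : A), c r (cj x) = cj (c r x)
  cj_zero : cj 0 = 0
  hr : ∀ (p q : ℤ) (x : A), x ∈ pq p q → x ≠ 0 →
    0 ≤ p ∧ 0 ≤ q ∧ cj x ∈ pq q p ∧
    ∀ i : ℕ, p + q = i → i ≤ d → L ^ (d - i + 1) * x = 0 →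
      ∃ r : ℝ, 0 < r ∧ (-1) ^ (i * (i - 1) / 2) * Complex.I ^ (p - q) *
        tr (L ^ (d - i) * x * cj x) = r

variable {A : Type} [Ring A] [Algebra ℂ A] {gr : ℕ → Submodule ℂ A} {tr : A →ₗ[ℂ] ℂ}
    {L : A} {d : ℕ} {pq : ℤ → ℤ → Submodule ℂ A} {cj : A → A} {prt : ℤ × ℤ → Module.End ℂ A}
    {c : ℕ → Module.End ℂ A} {S : Module.End ℂ A} (H : Dat gr tr L d pq cj prt c S)

include H

lemma Dat.hpow (n : ℕ) (y : A) : (LinearMap.mulLeft ℂ L ^ n) y = L ^ n * y := by
  rw [LinearMap.pow_mulLeft, LinearMap.mulLeft_apply]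

lemma Dat.mem_gr {p q : ℤ} {x : A} (hx : x ∈ pq p q) (h0 : x ≠ 0) :
    ∃ i : ℕ, p + q = i ∧ x ∈ gr i := by
  obtain ⟨h1, h2, -⟩ := H.hr p q x hx h0
  obtain ⟨i, hi⟩ := Int.eq_ofNat_of_zero_le (add_nonneg h1 h2)
  exact ⟨i, hi, H.le p q i hi hx⟩

/-- The components of a class of type `(p, q)`. -/
lemma Dat.comp_mem {p q : ℤ} {x : A} (hx : x ∈ pq p q) (r : ℕ) :
    c r x ∈ pq (p - r) (q - r) := by
  by_cases h0 : x = 0
  · rw [h0, map_zero]
    exact Submodule.zero_mem _
  obtain ⟨i, hi, hxi⟩ := H.mem_gr hx h0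
  obtain ⟨h1, h2⟩ := H.comp i x hxi
  have key : c r x = prt (p - r, q - r) (c r x) := by
    refine comp_eq H.comp H.uniq hxi (a := fun r : ℕ => prt (p - r, q - r) (c r x)) ?_ ?_ r
    · intro r
      rcases h1 r with h5 | ⟨j, h5, h6, h7, h8⟩
      · rw [h5, map_zero]
        exact Or.inl rfl
      · refine Or.inr ⟨j, h5, h6, ?_, ?_⟩
        · refine H.le (p - r) (q - r) j ?_ (H.prt_mem (p - r, q - r) _)
          have h9 : (i : ℤ) = j + 2 * r := by exact_mod_cast h5
          linarith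
        · rw [H.hpow] at h8 ⊢
          rw [← H.prt_mul, h8, map_zero]
    · have h3 : ∀ r ∈ range (d + 1), (LinearMap.mulLeft ℂ L ^ r) (prt (p - r, q - r) (c r x)) =
          prt (p, q) ((LinearMap.mulLeft ℂ L ^ r) (c r x)) := by
        intro r _
        rw [H.hpow, H.hpow, ← H.prt_mul]
        congr 2
        exact Prod.ext (by simp) (by simp)
      rw [Finset.sum_congr rfl h3, ← map_sum, ← h2, H.prt_same p q x hx]
  rw [key]
  exact H.prt_mem (p - r, q - r) _

lemma Dat.exists_comp {p q : ℤ} {x : A} (hx : x ∈ pq p q) (h0 : x ≠ 0) :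
    ∃ r ∈ range (d + 1), c r x ≠ 0 := by
  obtain ⟨i, hi, hxi⟩ := H.mem_gr hx h0
  obtain ⟨h1, h2⟩ := H.comp i x hxi
  by_contra hcon
  push Not at hcon
  apply h0
  rw [h2]
  exact Finset.sum_eq_zero fun r hr => by rw [hcon r hr, map_zero]

lemma Dat.range' {p q : ℤ} {x : A} (hx : x ∈ pq p q) (h0 : x ≠ 0) :
    0 ≤ p ∧ p ≤ d ∧ 0 ≤ q ∧ q ≤ d := by
  obtain ⟨h1, h2, -⟩ := H.hr p q x hx h0
  obtain ⟨i, hi, hxi⟩ := H.mem_gr hx h0
  obtain ⟨r, -, hr⟩ := H.exists_comp hx h0
  obtain ⟨h3, h4, -⟩ := H.hr _ _ _ (H.comp_mem hx r) hr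
  rcases (H.comp i x hxi).1 r with h5 | ⟨j, h5, h6, h7, h8⟩
  · exact absurd h5 hr
  · refine ⟨h1, ?_, h2, ?_⟩ <;> omega

lemma Dat.conj' {p q : ℤ} {x : A} (hx : x ∈ pq p q) : cj x ∈ pq q p := by
  by_cases h0 : x = 0
  · rw [h0, H.cj_zero]
    exact Submodule.zero_mem _
  · exact (H.hr p q x hx h0).2.2.1

lemma Dat.tr_ne {a b : ℤ} {z : A} (hz : z ∈ pq a b) (hab : a ≠ d ∨ b ≠ d) : tr z = 0 := by
  by_cases h0 : z = 0
  · rw [h0, map_zero]
  by_cases h1 : a = b
  · obtain ⟨i, hi, hzi⟩ := H.mem_gr hz h0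
    refine H.tr_gr i z ?_ hzi
    rintro rfl
    omega
  · exact H.tr_pq a b z h1 hz

lemma Dat.orth' {p q r s : ℤ} {x y : A} (hx : x ∈ pq p q) (hy : y ∈ pq r s)
    (hne : r ≠ q ∨ s ≠ p) : ∑ m ∈ range (d + 1), tr (S (c m x) * c m y) = 0 := by
  by_cases h0 : x = 0
  · exact Finset.sum_eq_zero fun m _ => by rw [h0, map_zero, map_zero, zero_mul, map_zero]
  obtain ⟨i, hi, hxi⟩ := H.mem_gr hx h0
  refine Finset.sum_eq_zero fun m _ => ?_
  rcases (H.comp i x hxi).1 m with h5 | ⟨j, h5, h6, h7, h8⟩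
  · rw [h5, map_zero, zero_mul, map_zero]
  · rw [H.S_eq j (by omega) _ h7, smul_mul_assoc, map_smul]
    have h9 := H.mul _ _ _ _ _ _ (H.mul _ _ _ _ _ _ (H.pow (d - j)) (H.comp_mem hx m))
      (H.comp_mem hy m)
    have h10 : ((d - j : ℕ) : ℤ) = d - j := by
      rw [Nat.cast_sub (by omega)]
    rw [h10] at h9
    rw [H.tr_ne h9 (by omega), smul_zero]

lemma Dat.pos' {p q : ℤ} {x : A} (hx : x ∈ pq p q) (h0 : x ≠ 0) :
    ∃ r : ℝ, 0 < r ∧ Complex.I ^ (p - q) *
      ∑ m ∈ range (d + 1), tr (S (c m x) * c m (cj x)) = r := by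
  classical
  obtain ⟨i, hi, hxi⟩ := H.mem_gr hx h0
  have hval : ∀ m ∈ range (d + 1), ∃ ρ : ℝ,
      Complex.I ^ (p - q) * tr (S (c m x) * c m (cj x)) = ρ ∧ 0 ≤ ρ ∧ (c m x ≠ 0 → 0 < ρ) := by
    intro m _
    by_cases hm : c m x = 0
    · refine ⟨0, ?_, le_rfl, fun h => absurd hm h⟩
      rw [hm, map_zero, zero_mul, map_zero, mul_zero, Complex.ofReal_zero]
    · rcases (H.comp i x hxi).1 m with h5 | ⟨j, h5, h6, h7, h8⟩
      · exact absurd h5 hm
      · rw [H.hpow] at h8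
        have h9 : (p - m) + (q - m) = (j : ℤ) := by omega
        obtain ⟨ρ, h10, h11⟩ := (H.hr _ _ _ (H.comp_mem hx m) hm).2.2.2 j h9 (by omega) h8
        refine ⟨ρ, ?_, h10.le, fun _ => h10⟩
        rw [← h11, H.cj_c, H.S_eq j (by omega) _ h7, smul_mul_assoc, map_smul, smul_eq_mul,
          sub_sub_sub_cancel_right]
        ring
  choose! ρ hρ hρ0 hρ1 using hval
  obtain ⟨m, hm, hne⟩ := H.exists_comp hx h0
  refine ⟨∑ m ∈ range (d + 1), ρ m, ?_, ?_⟩
  · exact Finset.sum_pos' (fun r hr => hρ0 r hr) ⟨m, hm, hρ1 m hm hne⟩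
  · rw [Finset.mul_sum, Complex.ofReal_sum]
    exact Finset.sum_congr rfl fun r hr => hρ r hr

end Hodge

section Rank

variable {K : Type*} [Field K] {A : Type*} [Ring A] [Algebra K A]

lemma rank_le {gr : ℕ → Submodule K A} {n : ℕ} {tr : A →ₗ[K] K}
    (h : IsPoincareAlgebra gr n tr) {i : ℕ} (hi : i ≤ 2 * n) :
    finrank K (gr i) ≤ finrank K (gr (2 * n - i)) := by
  have := h.finite
  set φ : gr i →ₗ[K] Module.Dual K (gr (2 * n - i)) :=
    (((LinearMap.mul K A).compr₂ tr).domRestrict₁₂ (gr i) (gr (2 * n - i))) with hφ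
  have hφa : ∀ (a : gr i) (b : gr (2 * n - i)), φ a b = tr (a * b) := fun a b => rfl
  have hinj : Function.Injective φ := by
    rw [← LinearMap.ker_eq_bot, LinearMap.ker_eq_bot']
    rintro ⟨a, ha⟩ h0
    apply Subtype.ext
    apply h.nondeg
    intro b
    refine gr_induction h.isInternal (p := fun b => tr (a * b) = 0) ?_ ?_ b
    · intro j b hb
      by_cases hj : j = 2 * n - i
      · subst hj
        have h1 := hφa ⟨a, ha⟩ ⟨b, hb⟩
        rw [h0] at h1
        exact h1.symm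
      · exact h.tr_eq_zero (h.mul_mem ha hb) (by omega)
    · intro b b' hb hb'
      rw [mul_add, map_add, hb, hb', add_zero]
  have h1 := LinearMap.finrank_le_finrank_of_injective hinj
  rwa [Subspace.dual_finrank_eq] at h1

lemma rank_eq {gr : ℕ → Submodule K A} {n : ℕ} {tr : A →ₗ[K] K}
    (h : IsPoincareAlgebra gr n tr) {i : ℕ} (hi : i ≤ 2 * n) :
    finrank K (gr i) = finrank K (gr (2 * n - i)) := by
  refine le_antisymm (rank_le h hi) ?_
  have h1 := rank_le h (i := 2 * n - i) (by omega)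
  rwa [show 2 * n - (2 * n - i) = i by omega] at h1

end Rank

section HL

variable {K : Type} [Field K] {A : Type} [Ring A] [Algebra K A]

/-- The hard Lefschetz property from the injectivity. -/
lemma isHL {gr : ℕ → Submodule K A} {d : ℕ} {tr : A →ₗ[K] K}
    (h : IsPoincareAlgebra gr d tr) {L : A} (hL : L ∈ gr 2)
    (hinj : ∀ i ≤ d, ∀ x ∈ gr i, L ^ (d - i) * x = 0 → x = 0) :
    IsHL gr (LinearMap.mulLeft K L) d where
  int := h.isInternal
  bot := h.gr_eq_bot
  deg i x hx := by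
    rw [LinearMap.mulLeft_apply, add_comm]
    exact h.mul_mem hL hx
  inj i hi x hx h0 := by
    rw [LinearMap.pow_mulLeft, LinearMap.mulLeft_apply] at h0
    exact hinj i hi x hx h0
  rank i hi := rank_eq h (by omega)

end HL

end Pool.Agent.N42.HR
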