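import Pool.Agent.N42.HR.Lin
import Pool.Agent.N816.HR.Hd

/-!
# The polarisation given by an ample divisor
-/

set_option linter.unusedSectionVars false

open CategoryTheory AlgebraicGeometry TensorProduct

universe u

namespace Pool.Agent.N42.HR

open Module Finset
open Pool.Agent.H914 Pool.Agent.H914.VarClass Pool.Agent.H914.VarClass.Obj
  Pool.Agent.H914.WeilCohomology
open Pool.Agent.Y121.AH (CW em)
open Pool.Agent.Y121.AHS
open Pool.Agent.N996.BP (RForm IsPolarisation conjH formC extConj conjK)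
open Pool.Agent.N204.RD.Raw (extBilE)
open Pool.Agent.N204.HR
open Pool.Agent.N816.HR (prt prt_same prt_mem prt_mul pow_mem tr_pq)

variable {k : Type u} [Field k] {𝒱 : VarClass k} {ops : CycleOps 𝒱}

section Conj

variable {K A : Type} [Field K] [Algebra K ℂ] [Ring A] [Algebra K A]

lemma conj_comm (h : Pool.Agent.N996.BP.IsRat K) (F : Module.End K A) (x : ℂ ⊗[K] A) :
    (F.baseChange ℂ) (show ℂ ⊗[K] A from extConj h (show Ext K ℂ A from x)) =
      (show ℂ ⊗[K] A from extConj h (show Ext K ℂ A from (F.baseChange ℂ) x)) := by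
  have h1 : ∀ x : ℂ ⊗[K] A, (show ℂ ⊗[K] A from extConj h (show Ext K ℂ A from x)) =
      TensorProduct.map (conjK h) (LinearMap.id : A →ₗ[K] A) x := fun x => rfl
  rw [h1, h1]
  refine tmul_induction (P := fun x => (F.baseChange ℂ)
    (TensorProduct.map (conjK h) (LinearMap.id : A →ₗ[K] A) x) =
      TensorProduct.map (conjK h) (LinearMap.id : A →ₗ[K] A) ((F.baseChange ℂ) x)) ?_ ?_ ?_ x
  · rw [map_zero, map_zero, map_zero]
  · intro x y hx hy
    rw [map_add, map_add, hx, hy, map_add, map_add]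
  · intro l a
    rw [TensorProduct.map_tmul, LinearMap.baseChange_tmul, LinearMap.baseChange_tmul,
      TensorProduct.map_tmul]
    rfl

end Conj

lemma iter {T : HodgeTheory ops} {X : 𝒱.Obj} (l x : HL T.W ℂ X) (n : ℕ) :
    (show ℂ ⊗[T.W.K] T.W.H X from (mulL l)^[n] x) =
      (show ℂ ⊗[T.W.K] T.W.H X from l) ^ n * (show ℂ ⊗[T.W.K] T.W.H X from x) := by
  induction n with
  | zero =>
    rw [pow_zero, one_mul]
    rfl
  | succ n ih =>
    rw [Function.iterate_succ_apply', pow_succ', mul_assoc, ← ih]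
    rfl

/-- The data of the Hodge theory. -/
theorem dat (T : HodgeTheory ops) {X : 𝒱.Obj} (D : X.Cycles) (hR : Def.HodgeRiemann T X D)
    {c : ℕ → Module.End T.W.K (T.W.H X)}
    (hc : IsComp (fun i => (T.W.gr X i).baseChange ℂ)
      (LinearMap.mulLeft ℂ ((1 : ℂ) ⊗ₜ[T.W.K] T.W.cl X D)) X.dim
      (fun r => ((c r).baseChange ℂ : Module.End ℂ (ℂ ⊗[T.W.K] T.W.H X))))
    (hu : IsUniq (fun i => (T.W.gr X i).baseChange ℂ)
      (LinearMap.mulLeft ℂ ((1 : ℂ) ⊗ₜ[T.W.K] T.W.cl X D)) X.dim) :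
    Dat (A := ℂ ⊗[T.W.K] T.W.H X) (fun i => (T.W.gr X i).baseChange ℂ)
      (formBase ℂ (T.W.tr X)) ((1 : ℂ) ⊗ₜ[T.W.K] T.W.cl X D) X.dim
      (fun p q => ((toH T).pq X p q : Submodule ℂ (ℂ ⊗[T.W.K] T.W.H X)))
      (fun x => extConj T.rat (show Ext T.W.K ℂ (T.W.H X) from x)) (fun r => prt T X r)
      (fun r => ((c r).baseChange ℂ : Module.End ℂ (ℂ ⊗[T.W.K] T.W.H X)))
      ((Sop (T.W.isInternal X) (T.W.cl X D) X.dim).baseChange ℂ) where
  comp := hc
  uniq := hu
  S_eq j hj a ha := Sop_base _ _ hj ha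
  le p q i h := (toH T).dec.le X h
  mul p q r s a b ha hb := (toH T).dec.mul ha hb
  prt_same p q x hx := prt_same hx
  prt_mem r x := prt_mem r x
  prt_mul n r y := prt_mul (pow_mem hR.1 n) r y
  pow n := pow_mem (T := T) hR.1 n
  tr_pq a b z h hz := tr_pq (T := T) h hz
  tr_gr i z h hz := (CW (toH T)).tr_eq_zero hz h
  cj_c r x := conj_comm T.rat (c r) x
  cj_zero := map_zero (TensorProduct.map (conjK T.rat) (LinearMap.id : T.W.H X →ₗ[T.W.K] T.W.H X))
  hr p q x hx h0 := by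
    obtain ⟨h1, h2, h3, h4⟩ := hR.2 p q x hx h0
    refine ⟨h1, h2, h3, ?_⟩
    intro i hi hid hz
    obtain ⟨r, h5, h6⟩ := h4 i hi hid ((iter (Def.clE T ℂ D) x _).trans hz)
    refine ⟨r, h5, ?_⟩
    rw [← h6]
    have h7 := iter (Def.clE T ℂ D) x (X.dim - i)
    have h8 : trL (mulL ((mulL (Def.clE T ℂ D))^[X.dim - i] x) (extConj T.rat x)) =
        formBase ℂ (T.W.tr X) ((show ℂ ⊗[T.W.K] T.W.H X from
          (mulL (Def.clE T ℂ D))^[X.dim - i] x) *
          (show ℂ ⊗[T.W.K] T.W.H X from extConj T.rat x)) := rfl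
    rw [h8, h7]
    rfl

/-- **The polarisation.** -/
theorem p2 (h1 : S_P1.{u}) (hd : S_PD) : S_P2.{u} := by
  intro k _ 𝒱 ops T X D hR
  obtain ⟨hinj, hinjE⟩ := h1 k 𝒱 ops T X D hR
  have hL : T.W.cl X D ∈ T.W.gr X 2 := T.W.cl_mem hR.1
  have hHL : IsHL (T.W.gr X) (LinearMap.mulLeft T.W.K (T.W.cl X D)) X.dim :=
    isHL (T.W.isPoincareAlgebra X) hL hinj
  obtain ⟨⟨c, hc⟩, -⟩ := hd T.W.K (T.W.H X) (T.W.gr X)
    (LinearMap.mulLeft T.W.K (T.W.cl X D)) X.dim hHL
  have hcE : ∀ (E : Type) [Field E] [Algebra T.W.K E],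
      IsComp (fun i => (T.W.gr X i).baseChange E)
        (LinearMap.mulLeft E ((1 : E) ⊗ₜ[T.W.K] T.W.cl X D)) X.dim
        (fun r => ((c r).baseChange E : Module.End E (E ⊗[T.W.K] T.W.H X))) := by
    intro E _ _
    have h2 := isComp_base (E := E) (gr := T.W.gr X)
      (l := LinearMap.mulLeft T.W.K (T.W.cl X D)) (d := X.dim) (c := c) hc
    rwa [mulLeft_base] at h2
  have huE : ∀ (E : Type) [Field E] [Algebra T.W.K E],
      IsUniq (fun i => (T.W.gr X i).baseChange E)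
        (LinearMap.mulLeft E ((1 : E) ⊗ₜ[T.W.K] T.W.cl X D)) X.dim := by
    intro E _ _
    have hP := IsPoincareAlgebra.baseChange (L := E) (T.W.isPoincareAlgebra X)
    have := hP.finite
    exact (hd E (E ⊗[T.W.K] T.W.H X) _ _ X.dim
      (isHL hP (Submodule.tmul_mem_baseChange_of_mem 1 hL) (hinjE E))).2
  refine ⟨psi (T.W.isInternal X) (T.W.tr X) (T.W.cl X D) X.dim c, ?_, ?_⟩
  · have H := dat T D hR (hcE ℂ) (huE ℂ)
    have hψ := fun x y : ℂ ⊗[T.W.K] T.W.H X =>
      psi_base (E := ℂ) (T.W.isInternal X) (T.W.tr X) (T.W.cl X D) X.dim c x y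
    exact
      { range := fun p q x hx h0 => H.range' hx h0
        conj := fun p q x hx => H.conj' hx
        orth := fun p q r s x y hx hy hne => (hψ x y).trans (H.orth' hx hy hne)
        pos := fun p q x hx h0 => by
          obtain ⟨r, h2, h3⟩ := H.pos' hx h0
          refine ⟨r, h2, Eq.trans ?_ h3⟩
          exact congrArg (fun z => Complex.I ^ (p - q) * z) (hψ x _) }
  · intro E _ _ q f hq hadd _ hmul hdeg htr hL' i x hx y
    have : CharZero E := charZero_of_injective_algebraMap (algebraMap T.W.K E).injective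
    have hP := IsPoincareAlgebra.baseChange (L := E) (T.W.isPoincareAlgebra X)
    have h2 := frob (F := E) (A := E ⊗[T.W.K] T.W.H X) (tr := formBase E (T.W.tr X))
      (S := (Sop (T.W.isInternal X) (T.W.cl X D) X.dim).baseChange E)
      hP.isInternal (hcE E) (huE E) (fun j hj a ha => Sop_base _ _ hj ha) q hq f hadd hmul
      (fun i x hx => hdeg i x hx) htr hL' hx y
    have hψ := fun x y : E ⊗[T.W.K] T.W.H X =>
      psi_base (E := E) (T.W.isInternal X) (T.W.tr X) (T.W.cl X D) X.dim c x y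
    exact (hψ (f x) (f y)).trans (h2.trans (congrArg (fun z => (q : E) ^ i * z) (hψ x y).symm))

end Pool.Agent.N42.HR
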